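import Mathlib

set_option autoImplicit false

/-! The Bruck-Ryser theorem for orders congruent to 2 modulo 4 (in the form needed). -/

namespace P3fd

/-- Elimination: the equations `(row j)^2 = (v j)^2` with affine rows are solvable. -/
theorem elim_fin : ∀ (N : ℕ) (M : Fin N → Fin N → ℚ) (c : Fin N → ℚ),
    ∃ v : Fin N → ℚ, ∀ j, (∑ k, M j k * v k + c j) ^ 2 = (v j) ^ 2 := by
  intro N
  induction N with
  | zero =>
    intro M c
    exact ⟨fun _ => 0, fun j => j.elim0⟩
  | succ N ih =>
    intro M c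
    obtain ⟨κ, hκ⟩ : ∃ κ : ℚ, ∀ R : ℚ, (M 0 0 * (κ * R) + R) ^ 2 = (κ * R) ^ 2 := by
      by_cases h : M 0 0 = 1
      · refine ⟨-1 / 2, fun R => ?_⟩
        rw [h]; ring
      · refine ⟨1 / (1 - M 0 0), fun R => ?_⟩
        have hne : 1 - M 0 0 ≠ 0 := fun e => h (sub_eq_zero.mp e).symm
        have : M 0 0 * (1 / (1 - M 0 0) * R) + R = 1 / (1 - M 0 0) * R := by
          field_simp
          ring
        rw [this]
    obtain ⟨v', hv'⟩ := ih (fun j k => M j.succ k.succ + M j.succ 0 * κ * M 0 k.succ)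
      (fun j => c j.succ + M j.succ 0 * κ * c 0)
    set R : ℚ := ∑ k : Fin N, M 0 k.succ * v' k + c 0 with hR
    refine ⟨Fin.cons (κ * R) v', fun j => ?_⟩
    refine Fin.cases ?_ (fun i => ?_) j
    · rw [Fin.sum_univ_succ]
      simp only [Fin.cons_zero, Fin.cons_succ]
      rw [add_assoc, ← hR]
      exact hκ R
    · rw [Fin.sum_univ_succ]
      simp only [Fin.cons_zero, Fin.cons_succ]
      rw [← hv' i]
      congr 1
      have : ∑ k : Fin N, (M i.succ k.succ + M i.succ 0 * κ * M 0 k.succ) * v' k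
          = ∑ k : Fin N, M i.succ k.succ * v' k
            + M i.succ 0 * κ * ∑ k : Fin N, M 0 k.succ * v' k := by
        rw [Finset.mul_sum, ← Finset.sum_add_distrib]
        apply Finset.sum_congr rfl
        intro k _
        ring
      rw [this, hR]
      ring

theorem elim_type {ι : Type} [Fintype ι] (M : ι → ι → ℚ) (c : ι → ℚ) :
    ∃ v : ι → ℚ, ∀ j, (∑ k, M j k * v k + c j) ^ 2 = (v j) ^ 2 := by
  classical
  let e := Fintype.equivFin ι
  obtain ⟨v, hv⟩ := elim_fin (Fintype.card ι) (fun j k => M (e.symm j) (e.symm k))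
    (fun j => c (e.symm j))
  refine ⟨fun i => v (e i), fun j => ?_⟩
  have := hv (e j)
  simp only [Equiv.symm_apply_apply] at this
  rw [← this]
  congr 2
  rw [← Equiv.sum_comp e.symm]
  simp

/-- Four squares: a linear substitution. -/
theorem four_block (m : ℕ) (q : ℕ) (hq : 0 < q) :
    ∃ T : (Fin m × Fin 4 → ℚ) →ₗ[ℚ] (Fin m × Fin 4 → ℚ),
      ∀ y, (q : ℚ) * ∑ j, (T y j) ^ 2 = ∑ j, (y j) ^ 2 := by
  obtain ⟨a, b, c, d, h⟩ := Nat.sum_four_squares q
  have hq' : (q : ℚ) = (a : ℚ) ^ 2 + b ^ 2 + c ^ 2 + d ^ 2 := by exact_mod_cast h.symm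
  have hq0 : (q : ℚ) ≠ 0 := by positivity
  let T : (Fin m × Fin 4 → ℚ) →ₗ[ℚ] (Fin m × Fin 4 → ℚ) :=
    { toFun := fun y ik => (1 / (q : ℚ)) *
        (![a * y (ik.1, 0) + b * y (ik.1, 1) + c * y (ik.1, 2) + d * y (ik.1, 3),
           a * y (ik.1, 1) - b * y (ik.1, 0) + c * y (ik.1, 3) - d * y (ik.1, 2),
           a * y (ik.1, 2) - b * y (ik.1, 3) - c * y (ik.1, 0) + d * y (ik.1, 1),
           a * y (ik.1, 3) + b * y (ik.1, 2) - c * y (ik.1, 1) - d * y (ik.1, 0)] :
           Fin 4 → ℚ) ik.2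
      map_add' := by
        intro x y
        funext ⟨i, k⟩
        fin_cases k <;> simp <;> ring
      map_smul' := by
        intro r x
        funext ⟨i, k⟩
        fin_cases k <;> simp <;> ring }
  refine ⟨T, fun y => ?_⟩
  rw [Fintype.sum_prod_type, Fintype.sum_prod_type, Finset.mul_sum]
  apply Finset.sum_congr rfl
  intro i _
  rw [Fin.sum_univ_four, Fin.sum_univ_four]
  have e0 : T y (i, 0) = (1 / (q : ℚ)) *
      (a * y (i, 0) + b * y (i, 1) + c * y (i, 2) + d * y (i, 3)) := rfl
  have e1 : T y (i, 1) = (1 / (q : ℚ)) *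
      (a * y (i, 1) - b * y (i, 0) + c * y (i, 3) - d * y (i, 2)) := rfl
  have e2 : T y (i, 2) = (1 / (q : ℚ)) *
      (a * y (i, 2) - b * y (i, 3) - c * y (i, 0) + d * y (i, 1)) := rfl
  have e3 : T y (i, 3) = (1 / (q : ℚ)) *
      (a * y (i, 3) + b * y (i, 2) - c * y (i, 1) - d * y (i, 0)) := rfl
  rw [e0, e1, e2, e3]
  have hne : ((a : ℚ) ^ 2 + b ^ 2 + c ^ 2 + d ^ 2) ≠ 0 := by rw [← hq']; exact hq0
  rw [hq']
  field_simp
  ring

theorem four_type {J : Type} [Fintype J] (hJ : 4 ∣ Fintype.card J) (q : ℕ) (hq : 0 < q) :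
    ∃ T : (J → ℚ) →ₗ[ℚ] (J → ℚ), ∀ y, (q : ℚ) * ∑ j, (T y j) ^ 2 = ∑ j, (y j) ^ 2 := by
  classical
  obtain ⟨m, hm⟩ := hJ
  have e : J ≃ Fin m × Fin 4 := Fintype.equivOfCardEq (by simp [hm, mul_comm])
  obtain ⟨T, hT⟩ := four_block m q hq
  refine ⟨(LinearMap.funLeft ℚ ℚ e) ∘ₗ T ∘ₗ (LinearMap.funLeft ℚ ℚ e.symm), fun y => ?_⟩
  have h1 := hT (LinearMap.funLeft ℚ ℚ e.symm y)
  have h2 : ∑ j, ((LinearMap.funLeft ℚ ℚ e ∘ₗ T ∘ₗ LinearMap.funLeft ℚ ℚ e.symm) y j) ^ 2
      = ∑ j, (T (LinearMap.funLeft ℚ ℚ e.symm y) j) ^ 2 := by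
    rw [← Equiv.sum_comp e (fun j => (T (LinearMap.funLeft ℚ ℚ e.symm y) j) ^ 2)]
    rfl
  have h3 : ∑ j, ((LinearMap.funLeft ℚ ℚ e.symm) y j) ^ 2 = ∑ j, (y j) ^ 2 := by
    rw [← Equiv.sum_comp e.symm (fun j => (y j) ^ 2)]
    rfl
  rw [h2, h1, h3]

open Configuration in
/-- The quadratic identity of a projective plane. -/
theorem plane_identity {P L : Type} [Membership P L] [Fintype P] [Fintype L]
    [ProjectivePlane P L] (x : P → ℚ) :
    (open Classical in ∑ l : L, (∑ p : P, if p ∈ l then x p else 0) ^ 2)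
      = (ProjectivePlane.order P L : ℚ) * ∑ p, (x p) ^ 2 + (∑ p, x p) ^ 2 := by
  classical
  have h1 : ∀ p p' : P, (∑ l : L, (if p ∈ l then (1 : ℚ) else 0) * (if p' ∈ l then (1 : ℚ) else 0))
      = 1 + (if p = p' then (ProjectivePlane.order P L : ℚ) else 0) := by
    intro p p'
    have h2 : (∑ l : L, (if p ∈ l then (1 : ℚ) else 0) * (if p' ∈ l then (1 : ℚ) else 0))
        = ((Finset.univ.filter (fun l : L => p ∈ l ∧ p' ∈ l)).card : ℚ) := by
      rw [Finset.card_filter]
      push_cast
      apply Finset.sum_congr rfl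
      intro l _
      by_cases h3 : p ∈ l <;> by_cases h4 : p' ∈ l <;> simp [h3, h4]
    rw [h2]
    split_ifs with h
    · subst h
      have h3 : (Finset.univ.filter (fun l : L => p ∈ l ∧ p ∈ l)).card
          = ProjectivePlane.order P L + 1 := by
        rw [← ProjectivePlane.lineCount_eq L p]
        unfold lineCount
        rw [Nat.card_eq_fintype_card, Fintype.card_subtype]
        simp
      rw [h3]
      push_cast
      ring
    · have h3 : (Finset.univ.filter (fun l : L => p ∈ l ∧ p' ∈ l)).card = 1 := by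
        rw [Finset.card_eq_one]
        refine ⟨HasLines.mkLine h, ?_⟩
        ext l
        rw [Finset.mem_filter, Finset.mem_singleton]
        constructor
        · rintro ⟨-, h4, h5⟩
          have := HasLines.mkLine_ax (P := P) (L := L) h
          exact (Nondegenerate.eq_or_eq h4 h5 this.1 this.2).resolve_left h
        · rintro rfl
          exact ⟨Finset.mem_univ _, HasLines.mkLine_ax (P := P) (L := L) h⟩
      rw [h3]
      simp
  have h5 : ∀ l : L, (∑ p : P, if p ∈ l then x p else 0) ^ 2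
      = ∑ p : P, ∑ p' : P, x p * x p' *
        ((if p ∈ l then (1 : ℚ) else 0) * (if p' ∈ l then (1 : ℚ) else 0)) := by
    intro l
    rw [sq, Finset.sum_mul_sum]
    apply Finset.sum_congr rfl
    intro p _
    apply Finset.sum_congr rfl
    intro p' _
    by_cases h3 : p ∈ l <;> by_cases h4 : p' ∈ l <;> simp [h3, h4]
  simp_rw [h5]
  rw [Finset.sum_comm]
  have h6 : ∀ p : P, (∑ l : L, ∑ p' : P, x p * x p' *
        ((if p ∈ l then (1 : ℚ) else 0) * (if p' ∈ l then (1 : ℚ) else 0)))
      = (ProjectivePlane.order P L : ℚ) * (x p) ^ 2 + x p * ∑ p' : P, x p' := by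
    intro p
    rw [Finset.sum_comm]
    simp_rw [← Finset.mul_sum, h1]
    rw [Finset.mul_sum, ← sub_eq_iff_eq_add, ← Finset.sum_sub_distrib]
    have : ∀ p' : P, x p * x p' * (1 + if p = p' then (ProjectivePlane.order P L : ℚ) else 0)
        - x p * x p' = if p = p' then (ProjectivePlane.order P L : ℚ) * (x p) ^ 2 else 0 := by
      intro p'
      split_ifs with h
      · subst h; ring
      · ring
    simp_rw [this]
    simp
  simp_rw [h6]
  rw [Finset.sum_add_distrib, ← Finset.mul_sum, ← Finset.sum_mul]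
  ring

open Configuration in
/-- Bruck-Ryser: if the number of points plus one is divisible by four then the order is a sum
of two rational squares. -/
theorem bruck_ryser {P L : Type} [Membership P L] [Fintype P] [Fintype L]
    [ProjectivePlane P L] (h4 : 4 ∣ Fintype.card P + 1) :
    ∃ z w : ℚ, (ProjectivePlane.order P L : ℚ) * z ^ 2 = 1 + w ^ 2 := by
  classical
  have hq : 0 < ProjectivePlane.order P L := lt_trans one_pos (ProjectivePlane.one_lt_order P L)
  obtain ⟨T, hT⟩ := four_type (J := Option P) (by rwa [Fintype.card_option])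
    (ProjectivePlane.order P L) hq
  have e : P ≃ L := Fintype.equivOfCardEq (ProjectivePlane.card_points_eq_card_lines P L)
  -- the forms
  let A : L → (Option P → ℚ) →ₗ[ℚ] ℚ := fun l =>
    { toFun := fun x => ∑ p : P, if p ∈ l then x (some p) else 0
      map_add' := by
        intro x y
        rw [← Finset.sum_add_distrib]
        apply Finset.sum_congr rfl
        intro p _
        split_ifs <;> simp
      map_smul' := by
        intro r x
        simp only [Pi.smul_apply, smul_eq_mul, RingHom.id_apply, Finset.mul_sum]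
        apply Finset.sum_congr rfl
        intro p _
        split_ifs <;> simp }
  obtain ⟨v, hv⟩ := elim_type (fun j k : P => A (e j) (T (Pi.single (some k) 1)))
    (fun j : P => A (e j) (T (Pi.single none 1)))
  let y : Option P → ℚ := fun o => o.elim 1 v
  have hy : y = ∑ k : P, v k • (Pi.single (some k) (1 : ℚ) : Option P → ℚ)
      + Pi.single none (1 : ℚ) := by
    funext o
    rw [Pi.add_apply, Finset.sum_apply]
    cases o with
    | none => simp [y]
    | some p =>
      simp only [Pi.smul_apply, smul_eq_mul]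
      rw [Finset.sum_eq_single p]
      · simp [y]
      · intro b _ hb
        rw [Pi.single_eq_of_ne (by simpa using hb.symm)]
        ring
      · intro h
        exact absurd (Finset.mem_univ p) h
  have hA : ∀ j : P, (A (e j) (T y)) ^ 2 = (v j) ^ 2 := by
    intro j
    rw [← hv j, hy]
    congr 1
    rw [map_add, map_add, map_sum, map_sum]
    congr 1
    apply Finset.sum_congr rfl
    intro k _
    rw [map_smul, map_smul, smul_eq_mul, mul_comm]
  refine ⟨T y none, ∑ p : P, T y (some p), ?_⟩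
  have h1 := plane_identity (L := L) (fun p : P => T y (some p))
  have h2 := hT y
  rw [Fintype.sum_option, Fintype.sum_option] at h2
  have h3 : (∑ l : L, (∑ p : P, if p ∈ l then T y (some p) else 0) ^ 2) = ∑ p : P, (v p) ^ 2 := by
    rw [← Equiv.sum_comp e]
    apply Finset.sum_congr rfl
    intro j _
    exact hA j
  have h4 : ∑ p : P, (y (some p)) ^ 2 = ∑ p : P, (v p) ^ 2 := rfl
  have h5 : y none = 1 := rfl
  rw [h4, h5] at h2
  rw [h3] at h1
  linear_combination h2 + h1

end P3fd
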