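import Mathlib

set_option autoImplicit false

/-! Relation algebra signature, quantifier rank, representability, Lyndon algebras. -/

open FirstOrder

namespace P3fd

/-- The signature of relation algebras: the symbols number 0, 1, 2, 3, 4 are the identity
constant, complement, converse, join and composition. -/
abbrev RL : FirstOrder.Language.{0, 0} :=
  FirstOrder.Language.mk (fun m => {i : Fin 5 // (![0, 1, 1, 2, 2] : Fin 5 → ℕ) i = m})
    (fun _ => Empty)

/-- Quantifier rank of a formula: the depth of nesting of quantifiers. -/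
def qrank {α : Type} : ∀ {n : ℕ}, RL.BoundedFormula α n → ℕ
  | _, Language.BoundedFormula.falsum => 0
  | _, Language.BoundedFormula.equal _ _ => 0
  | _, Language.BoundedFormula.rel _ _ => 0
  | _, Language.BoundedFormula.imp f g => max (qrank f) (qrank g)
  | _, Language.BoundedFormula.all f => qrank f + 1

/-- An algebra in the signature is representable if it is isomorphic to an algebra of subsets of
an equivalence relation. -/
def Representable (M : Type) [RL.Structure M] : Prop :=
  ∃ (U : Type) (E : U → U → Prop) (h : M → Set (U × U)),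
    Equivalence E ∧ Function.Injective h ∧
    (∀ a : M, ∀ p ∈ h a, E p.1 p.2) ∧
    h (Language.Structure.funMap (L := RL) (n := 0) ⟨0, rfl⟩ ![]) = {p : U × U | p.1 = p.2} ∧
    (∀ a : M, h (Language.Structure.funMap (L := RL) (n := 1) ⟨1, rfl⟩ ![a])
      = {p : U × U | E p.1 p.2 ∧ p ∉ h a}) ∧
    (∀ a : M, h (Language.Structure.funMap (L := RL) (n := 1) ⟨2, rfl⟩ ![a])
      = {p : U × U | (p.2, p.1) ∈ h a}) ∧
    (∀ a b : M, h (Language.Structure.funMap (L := RL) (n := 2) ⟨3, rfl⟩ ![a, b]) = h a ∪ h b) ∧
    (∀ a b : M, h (Language.Structure.funMap (L := RL) (n := 2) ⟨4, rfl⟩ ![a, b])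
      = {p : U × U | ∃ y : U, (p.1, y) ∈ h a ∧ (y, p.2) ∈ h b})

/-- Consistent triples of atoms of the Lyndon algebra with set of slopes `S`: the atoms are the
identity `none` and the slopes `some s`. -/
def Tri {S : Type} : Option S → Option S → Option S → Prop
  | none, y, z => y = z
  | some a, none, z => z = some a
  | some a, some b, none => a = b
  | some a, some b, some c => (a = b ∧ b = c) ∨ (a ≠ b ∧ c ≠ a ∧ c ≠ b)

/-- Composition of sets of atoms. -/
def comp {S : Type} (X Y : Set (Option S)) : Set (Option S) :=
  {z | ∃ x ∈ X, ∃ y ∈ Y, Tri x y z}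

/-- Interpretation of the symbols in the Lyndon algebra; the argument tuple is given with
arbitrary length and read off at positions `0` and `1`. -/
def interp {S : Type} (i : Fin 5) (v : ℕ → Set (Option S)) : Set (Option S) :=
  if i = 0 then {none}
  else if i = 1 then (v 0)ᶜ
  else if i = 2 then v 0
  else if i = 3 then v 0 ∪ v 1
  else comp (v 0) (v 1)

/-- The Lyndon algebra on the sets of atoms. -/
instance lyn (S : Type) : RL.Structure (Set (Option S)) where
  funMap := fun {n} f v => interp f.1 (fun j => if h : j < n then v ⟨j, h⟩ else ∅)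
  RelMap := fun {_} r _ => Empty.elim r

/-- Number of atoms in a cell compared up to a threshold. -/
def Sim {S S' : Type} (t : ℕ) {m : ℕ} (x : Fin m → Set (Option S)) (y : Fin m → Set (Option S')) :
    Prop :=
  (∀ i, none ∈ x i ↔ none ∈ y i) ∧
  ∀ (τ : Fin m → Prop) (k : ℕ), k ≤ t →
    ((k : ℕ∞) ≤ {s : S | (fun i => some s ∈ x i) = τ}.encard ↔
     (k : ℕ∞) ≤ {s : S' | (fun i => some s ∈ y i) = τ}.encard)

end P3fd
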