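import Pool.Agent.Lib.P3fd.Defs

set_option autoImplicit false

/-! Lyndon algebras with many slopes agree on sentences of small quantifier rank. -/

open FirstOrder

namespace P3fd

variable {S S' : Type}

/-- Type of a slope over a tuple. -/
def tp {S : Type} {m : ℕ} (x : Fin m → Set (Option S)) (s : S) : Fin m → Prop :=
  fun i => some s ∈ x i

theorem Sim.mono {t t' : ℕ} (h : t' ≤ t) {m : ℕ} {x : Fin m → Set (Option S)}
    {y : Fin m → Set (Option S')} (hs : Sim t x y) : Sim t' x y :=
  ⟨hs.1, fun τ k hk => hs.2 τ k (hk.trans h)⟩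

theorem Sim.symm {t : ℕ} {m : ℕ} {x : Fin m → Set (Option S)}
    {y : Fin m → Set (Option S')} (hs : Sim t x y) : Sim t y x :=
  ⟨fun i => (hs.1 i).symm, fun τ k hk => (hs.2 τ k hk).symm⟩

theorem Sim.pick {t : ℕ} {m : ℕ} {x : Fin m → Set (Option S)}
    {y : Fin m → Set (Option S')} (hs : Sim t x y) (F : Finset S) (hF : F.card + 1 ≤ t)
    (f : S → S') (hf : ∀ a ∈ F, tp y (f a) = tp x a) (b : S) (hb : b ∉ F) :
    ∃ b' : S', tp y b' = tp x b ∧ ∀ a ∈ F, b' ≠ f a := by
  classical
  by_contra hcon
  push Not at hcon
  set G : Finset S := F.filter (fun a => tp x a = tp x b) with hG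
  have hGF : G.card ≤ F.card := Finset.card_filter_le _ _
  have h1 : ((G.card + 1 : ℕ) : ℕ∞) ≤ {s : S | (fun i => some s ∈ x i) = tp x b}.encard := by
    have hsub : ((insert b G : Finset S) : Set S) ⊆ {s : S | (fun i => some s ∈ x i) = tp x b} := by
      intro s hs'
      rw [Finset.mem_coe, Finset.mem_insert] at hs'
      rcases hs' with rfl | hs'
      · rfl
      · exact (Finset.mem_filter.mp hs').2
    have hcard : (insert b G : Finset S).card = G.card + 1 := by
      apply Finset.card_insert_of_notMem
      intro hbG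
      exact hb (Finset.mem_filter.mp hbG).1
    calc ((G.card + 1 : ℕ) : ℕ∞) = (((insert b G : Finset S).card : ℕ) : ℕ∞) := by rw [hcard]
      _ = ((insert b G : Finset S) : Set S).encard := (Set.encard_coe_eq_coe_finsetCard _).symm
      _ ≤ _ := Set.encard_le_encard hsub
  have h2 := (hs.2 (tp x b) (G.card + 1) (by omega)).mp h1
  have h3 : {s : S' | (fun i => some s ∈ y i) = tp x b} ⊆ ((G.image f : Finset S') : Set S') := by
    intro s hs'
    obtain ⟨a, haF, ha⟩ := hcon s hs'
    rw [Finset.mem_coe, Finset.mem_image]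
    refine ⟨a, ?_, ha.symm⟩
    rw [hG, Finset.mem_filter]
    refine ⟨haF, ?_⟩
    rw [← hf a haF, ← ha]
    exact hs'
  have h4 : ((G.card + 1 : ℕ) : ℕ∞) ≤ ((G.card : ℕ) : ℕ∞) :=
    calc ((G.card + 1 : ℕ) : ℕ∞) ≤ _ := h2
      _ ≤ ((G.image f : Finset S') : Set S').encard := Set.encard_le_encard h3
      _ = (((G.image f).card : ℕ) : ℕ∞) := Set.encard_coe_eq_coe_finsetCard _
      _ ≤ ((G.card : ℕ) : ℕ∞) := by exact_mod_cast Finset.card_image_le
  have h5 : G.card + 1 ≤ G.card := by exact_mod_cast h4
  omega

/-- Corresponding sets: agree at the identity, and on slopes of the same type. -/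
def Corr {m : ℕ} (x : Fin m → Set (Option S)) (y : Fin m → Set (Option S'))
    (X : Set (Option S)) (Y : Set (Option S')) : Prop :=
  (none ∈ X ↔ none ∈ Y) ∧ ∀ s s', tp x s = tp y s' → (some s ∈ X ↔ some s' ∈ Y)

theorem Corr.symm {m : ℕ} {x : Fin m → Set (Option S)} {y : Fin m → Set (Option S')}
    {X : Set (Option S)} {Y : Set (Option S')} (h : Corr x y X Y) : Corr y x Y X :=
  ⟨h.1.symm, fun s s' hs => (h.2 s' s hs.symm).symm⟩

theorem Sim.pick0 {t : ℕ} {m : ℕ} {x : Fin m → Set (Option S)}
    {y : Fin m → Set (Option S')} (hs : Sim t x y) (ht : 3 ≤ t) (a : S) :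
    ∃ a' : S', tp x a = tp y a' := by
  obtain ⟨b, hb, -⟩ := hs.pick ∅ (by simp; omega)
    (fun s => (Classical.choice (by
      have h1 := (hs.2 (tp x a) 1 (by omega)).mp (by
        have : a ∈ {s : S | (fun i => some s ∈ x i) = tp x a} := rfl
        rw [Nat.cast_one, Set.one_le_encard_iff_nonempty]
        exact ⟨a, this⟩)
      rw [Nat.cast_one, Set.one_le_encard_iff_nonempty] at h1
      exact ⟨h1.choose⟩))) (by simp) a (by simp)
  exact ⟨b, hb.symm⟩

theorem comp_corr_aux {m : ℕ} {t : ℕ} (ht : 3 ≤ t) {x : Fin m → Set (Option S)}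
    {y : Fin m → Set (Option S')} (hs : Sim t x y)
    {X X2 : Set (Option S)} {Y Y2 : Set (Option S')} (h : Corr x y X Y) (h2 : Corr x y X2 Y2) :
    (none ∈ comp X X2 → none ∈ comp Y Y2) ∧
    ∀ s s', tp x s = tp y s' → some s ∈ comp X X2 → some s' ∈ comp Y Y2 := by
  classical
  constructor
  · rintro ⟨p, hp, q, hq, hpq⟩
    cases p with
    | none =>
      cases q with
      | none => exact ⟨none, h.1.mp hp, none, h2.1.mp hq, rfl⟩
      | some b => simp [Tri] at hpq
    | some a =>
      cases q with
      | none => simp [Tri] at hpq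
      | some b =>
        simp only [Tri] at hpq
        subst hpq
        obtain ⟨a', ha'⟩ := hs.pick0 ht a
        exact ⟨some a', (h.2 a a' ha').mp hp, some a', (h2.2 a a' ha').mp hq, rfl⟩
  · intro c c' hc
    rintro ⟨p, hp, q, hq, hpq⟩
    cases p with
    | none =>
      simp only [Tri] at hpq
      subst hpq
      exact ⟨none, h.1.mp hp, some c', (h2.2 c c' hc).mp hq, rfl⟩
    | some a =>
      cases q with
      | none =>
        simp only [Tri, Option.some.injEq] at hpq
        subst hpq
        exact ⟨some c', (h.2 _ _ hc).mp hp, none, h2.1.mp hq, rfl⟩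
      | some b =>
        simp only [Tri] at hpq
        rcases hpq with ⟨hab, hbc⟩ | ⟨hab, hca, hcb⟩
        · subst hab; subst hbc
          exact ⟨some c', (h.2 _ _ hc).mp hp, some c', (h2.2 _ _ hc).mp hq, Or.inl ⟨rfl, rfl⟩⟩
        · obtain ⟨a', ha', hac'⟩ := hs.pick {c} (by simp; omega) (fun _ => c')
            (by
              intro u hu
              rw [Finset.mem_singleton] at hu
              subst hu
              exact hc.symm) a (by
                rw [Finset.mem_singleton]
                exact fun e => hca e.symm)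
          have hac'' : a' ≠ c' := hac' c (Finset.mem_singleton_self c)
          obtain ⟨b', hb', hbc'⟩ := hs.pick {c, a} (by
              have := Finset.card_le_two (a := c) (b := a)
              omega) (fun u => if u = c then c' else a')
            (by
              intro u hu
              rw [Finset.mem_insert, Finset.mem_singleton] at hu
              rcases hu with rfl | rfl
              · simp [hc]
              · have : ¬ (u = c) := fun e => hca e.symm
                simp [this, ha']) b (by
                rw [Finset.mem_insert, Finset.mem_singleton]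
                rintro (e | e)
                · exact hcb e.symm
                · exact hab e.symm)
          have hb1 : b' ≠ c' := by
            have := hbc' c (by simp)
            simpa using this
          have hb2 : b' ≠ a' := by
            have := hbc' a (by simp)
            have hne : ¬ (a = c) := fun e => hca e.symm
            simpa [hne] using this
          exact ⟨some a', (h.2 _ _ ha'.symm).mp hp, some b', (h2.2 _ _ hb'.symm).mp hq,
            Or.inr ⟨hb2.symm, hac''.symm, hb1.symm⟩⟩

theorem comp_corr {m : ℕ} {t : ℕ} (ht : 3 ≤ t) {x : Fin m → Set (Option S)}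
    {y : Fin m → Set (Option S')} (hs : Sim t x y)
    {X X2 : Set (Option S)} {Y Y2 : Set (Option S')} (h : Corr x y X Y) (h2 : Corr x y X2 Y2) :
    Corr x y (comp X X2) (comp Y Y2) := by
  have A := comp_corr_aux ht hs h h2
  have B := comp_corr_aux ht hs.symm h.symm h2.symm
  exact ⟨⟨A.1, B.1⟩, fun s s' e => ⟨A.2 s s' e, B.2 s' s e.symm⟩⟩

theorem interp_corr {m : ℕ} {t : ℕ} (ht : 3 ≤ t) {x : Fin m → Set (Option S)}
    {y : Fin m → Set (Option S')} (hs : Sim t x y) (i : Fin 5)
    (v : ℕ → Set (Option S)) (w : ℕ → Set (Option S')) (h : ∀ j, Corr x y (v j) (w j)) :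
    Corr x y (interp i v) (interp i w) := by
  unfold interp
  split_ifs
  · exact ⟨by simp, by simp⟩
  · exact ⟨not_congr (h 0).1, fun s s' e => not_congr ((h 0).2 s s' e)⟩
  · exact h 0
  · exact ⟨or_congr (h 0).1 (h 1).1, fun s s' e => or_congr ((h 0).2 s s' e) ((h 1).2 s s' e)⟩
  · exact comp_corr ht hs (h 0) (h 1)

theorem term_corr {m : ℕ} {t : ℕ} (ht : 3 ≤ t) {x : Fin m → Set (Option S)}
    {y : Fin m → Set (Option S')} (hs : Sim t x y)
    (v : Empty → Set (Option S)) (w : Empty → Set (Option S')) (p : RL.Term (Empty ⊕ Fin m)) :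
    Corr x y (p.realize (Sum.elim v x)) (p.realize (Sum.elim w y)) := by
  induction p with
  | var a =>
    rcases a with a | a
    · exact a.elim
    · refine ⟨hs.1 a, fun s s' e => ?_⟩
      exact iff_of_eq (congrFun e a)
  | func f ts ih =>
    rw [Language.Term.realize_func, Language.Term.realize_func]
    refine interp_corr ht hs _ _ _ (fun j => ?_)
    split_ifs with hj
    · exact ih _
    · exact ⟨by simp, by simp⟩

theorem eq_of_corr {m : ℕ} {t : ℕ} (ht : 3 ≤ t) {x : Fin m → Set (Option S)}
    {y : Fin m → Set (Option S')} (hs : Sim t x y)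
    {X X2 : Set (Option S)} {Y Y2 : Set (Option S')} (h : Corr x y X Y) (h2 : Corr x y X2 Y2)
    (e : X = X2) : Y = Y2 := by
  ext o
  cases o with
  | none => rw [← h.1, ← h2.1, e]
  | some s' =>
    obtain ⟨s, hs'⟩ := hs.symm.pick0 ht s'
    rw [← h.2 s s' hs'.symm, ← h2.2 s s' hs'.symm, e]

/-- Splitting one cell. -/
theorem split_cell (t : ℕ) (C A : Set S) (hA : A ⊆ C) (C' : Set S')
    (h : ∀ k : ℕ, k ≤ 2 * t → ((k : ℕ∞) ≤ C.encard ↔ (k : ℕ∞) ≤ C'.encard)) :
    ∃ A' : Set S', A' ⊆ C' ∧
      (∀ k : ℕ, k ≤ t → ((k : ℕ∞) ≤ A.encard ↔ (k : ℕ∞) ≤ A'.encard)) ∧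
      (∀ k : ℕ, k ≤ t → ((k : ℕ∞) ≤ (C \ A).encard ↔ (k : ℕ∞) ≤ (C' \ A').encard)) := by
  have main : ∀ (A : Set S), A ⊆ C → A.encard < (t : ℕ∞) →
      ∃ A' : Set S', A' ⊆ C' ∧
      (∀ k : ℕ, k ≤ t → ((k : ℕ∞) ≤ A.encard ↔ (k : ℕ∞) ≤ A'.encard)) ∧
      (∀ k : ℕ, k ≤ t → ((k : ℕ∞) ≤ (C \ A).encard ↔ (k : ℕ∞) ≤ (C' \ A').encard)) := by
    intro A hA hlt
    obtain ⟨a, ha⟩ := ENat.ne_top_iff_exists.mp (ne_top_of_lt hlt)
    have hat : a < t := by
      rw [← ha] at hlt
      exact_mod_cast hlt
    have h1 : (a : ℕ∞) ≤ C'.encard := by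
      rw [← h a (by omega), ha]
      exact Set.encard_le_encard hA
    obtain ⟨A', hA', hcard⟩ := Set.exists_subset_encard_eq h1
    refine ⟨A', hA', ?_, ?_⟩
    · intro k _
      rw [hcard, ha]
    · intro k hk
      have e1 : (C \ A).encard + A.encard = C.encard := Set.encard_sdiff_add_encard_of_subset hA
      have e2 : (C' \ A').encard + A'.encard = C'.encard :=
        Set.encard_sdiff_add_encard_of_subset hA'
      have h3 := h (k + a) (by omega)
      rw [← e1, ← e2, hcard, ← ha] at h3
      push_cast at h3
      have hfin : (a : ℕ∞) ≠ ⊤ := ENat.natCast_ne_top a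
      rw [ENat.add_le_add_iff_right hfin, ENat.add_le_add_iff_right hfin] at h3
      exact h3
  by_cases hc1 : A.encard < (t : ℕ∞)
  · exact main A hA hc1
  · by_cases hc2 : (C \ A).encard < (t : ℕ∞)
    · obtain ⟨B', hB', h1, h2⟩ := main (C \ A) Set.sdiff_subset hc2
      refine ⟨C' \ B', Set.sdiff_subset, ?_, ?_⟩
      · intro k hk
        have := h2 k hk
        rwa [Set.sdiff_sdiff_cancel_left hA] at this
      · intro k hk
        rw [Set.sdiff_sdiff_cancel_left hB']
        exact h1 k hk
    · rw [not_lt] at hc1 hc2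
      have e1 : (C \ A).encard + A.encard = C.encard := Set.encard_sdiff_add_encard_of_subset hA
      have h3 : ((2 * t : ℕ) : ℕ∞) ≤ C.encard := by
        rw [← e1, two_mul]
        push_cast
        exact add_le_add hc2 hc1
      have h4 := (h (2 * t) le_rfl).mp h3
      have h5 : (t : ℕ∞) ≤ C'.encard := le_trans (by exact_mod_cast (by omega)) h4
      obtain ⟨A', hA', hcard⟩ := Set.exists_subset_encard_eq h5
      have e2 : (C' \ A').encard + A'.encard = C'.encard :=
        Set.encard_sdiff_add_encard_of_subset hA'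
      have h6 : (t : ℕ∞) ≤ (C' \ A').encard := by
        rw [← e2, hcard, two_mul] at h4
        push_cast at h4
        rwa [ENat.add_le_add_iff_right (ENat.natCast_ne_top t)] at h4
      refine ⟨A', hA', ?_, ?_⟩
      · intro k hk
        have hk' : (k : ℕ∞) ≤ t := by exact_mod_cast hk
        rw [hcard]
        exact ⟨fun _ => hk', fun _ => hk'.trans hc1⟩
      · intro k hk
        have hk' : (k : ℕ∞) ≤ t := by exact_mod_cast hk
        exact ⟨fun _ => hk'.trans h6, fun _ => hk'.trans hc2⟩

theorem Sim.extend {t : ℕ} {m : ℕ} {x : Fin m → Set (Option S)}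
    {y : Fin m → Set (Option S')} (hs : Sim (2 * t) x y) (X : Set (Option S)) :
    ∃ Y : Set (Option S'), Sim t (Fin.snoc x X : Fin (m + 1) → Set (Option S))
      (Fin.snoc y Y : Fin (m + 1) → Set (Option S')) := by
  have key : ∀ τ : Fin m → Prop, ∃ A' : Set S',
      A' ⊆ {s : S' | (fun i => some s ∈ y i) = τ} ∧
      (∀ k : ℕ, k ≤ t → ((k : ℕ∞) ≤
        ({s : S | (fun i => some s ∈ x i) = τ} ∩ {s : S | some s ∈ X}).encard ↔
        (k : ℕ∞) ≤ A'.encard)) ∧
      (∀ k : ℕ, k ≤ t → ((k : ℕ∞) ≤ ({s : S | (fun i => some s ∈ x i) = τ} \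
        ({s : S | (fun i => some s ∈ x i) = τ} ∩ {s : S | some s ∈ X})).encard ↔
        (k : ℕ∞) ≤ ({s : S' | (fun i => some s ∈ y i) = τ} \ A').encard)) := by
    intro τ
    exact split_cell t _ _ Set.inter_subset_left _ (hs.2 τ)
  choose A' hA'1 hA'2 hA'3 using key
  refine ⟨{o | (o = none ∧ none ∈ X) ∨ ∃ s', o = some s' ∧ s' ∈ A' (fun i => some s' ∈ y i)},
    ?_, ?_⟩
  · intro i
    refine Fin.lastCases ?_ (fun j => ?_) i
    · simp
    · simpa using hs.1 j
  · intro τ k hk
    have hY : ∀ s' : S', (some s' ∈ ({o | (o = none ∧ none ∈ X) ∨ ∃ s', o = some s' ∧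
        s' ∈ A' (fun i => some s' ∈ y i)} : Set (Option S'))) ↔
        s' ∈ A' (fun i => some s' ∈ y i) := by
      intro s'
      simp
    set τ0 : Fin m → Prop := fun i => τ i.castSucc with hτ0
    by_cases hl : τ (Fin.last m)
    · have e1 : {s : S | (fun i => some s ∈ (Fin.snoc x X : Fin (m + 1) → Set (Option S)) i) = τ}
          = {s : S | (fun i => some s ∈ x i) = τ0} ∩ {s : S | some s ∈ X} := by
        ext s
        simp only [Set.mem_ofPred_eq, Set.mem_inter_iff]
        constructor
        · intro h
          constructor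
          · funext i
            have := congrFun h i.castSucc
            simpa using this
          · have := congrFun h (Fin.last m)
            simp only [Fin.snoc_last] at this
            rw [this]
            exact hl
        · rintro ⟨h1, h2⟩
          funext i
          refine Fin.lastCases ?_ (fun j => ?_) i
          · simp only [Fin.snoc_last]
            exact propext ⟨fun _ => hl, fun _ => h2⟩
          · have := congrFun h1 j
            simpa using this
      have e2 : {s : S' | (fun i => some s ∈ (Fin.snoc y {o | (o = none ∧ none ∈ X) ∨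
          ∃ s', o = some s' ∧ s' ∈ A' (fun i => some s' ∈ y i)} :
            Fin (m + 1) → Set (Option S')) i) = τ} = A' τ0 := by
        ext s
        simp only [Set.mem_ofPred_eq]
        constructor
        · intro h
          have h1 : (fun i => some s ∈ y i) = τ0 := by
            funext i
            have := congrFun h i.castSucc
            simpa using this
          have h2 := congrFun h (Fin.last m)
          simp only [Fin.snoc_last] at h2
          have h3 := (hY s).mp (by rw [h2]; exact hl)
          rwa [h1] at h3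
        · intro h
          have h1 : (fun i => some s ∈ y i) = τ0 := hA'1 τ0 h
          funext i
          refine Fin.lastCases ?_ (fun j => ?_) i
          · simp only [Fin.snoc_last]
            refine propext ⟨fun _ => hl, fun _ => (hY s).mpr ?_⟩
            rwa [h1]
          · have := congrFun h1 j
            simpa using this
      rw [e1, e2]
      exact hA'2 τ0 k hk
    · have e1 : {s : S | (fun i => some s ∈ (Fin.snoc x X : Fin (m + 1) → Set (Option S)) i) = τ}
          = {s : S | (fun i => some s ∈ x i) = τ0} \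
            ({s : S | (fun i => some s ∈ x i) = τ0} ∩ {s : S | some s ∈ X}) := by
        ext s
        simp only [Set.mem_ofPred_eq, Set.mem_inter_iff, Set.mem_sdiff]
        constructor
        · intro h
          have h0 : (fun i => some s ∈ x i) = τ0 := by
            funext i
            have := congrFun h i.castSucc
            simpa using this
          refine ⟨h0, ?_⟩
          rintro ⟨-, h2⟩
          have := congrFun h (Fin.last m)
          simp only [Fin.snoc_last] at this
          rw [← this] at hl
          exact hl h2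
        · rintro ⟨h1, h2⟩
          funext i
          refine Fin.lastCases ?_ (fun j => ?_) i
          · simp only [Fin.snoc_last]
            exact propext ⟨fun h3 => absurd ⟨h1, h3⟩ h2, fun h3 => absurd h3 hl⟩
          · have := congrFun h1 j
            simpa using this
      have e2 : {s : S' | (fun i => some s ∈ (Fin.snoc y {o | (o = none ∧ none ∈ X) ∨
          ∃ s', o = some s' ∧ s' ∈ A' (fun i => some s' ∈ y i)} :
            Fin (m + 1) → Set (Option S')) i) = τ} =
            {s : S' | (fun i => some s ∈ y i) = τ0} \ A' τ0 := by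
        ext s
        simp only [Set.mem_ofPred_eq, Set.mem_sdiff]
        constructor
        · intro h
          have h1 : (fun i => some s ∈ y i) = τ0 := by
            funext i
            have := congrFun h i.castSucc
            simpa using this
          refine ⟨h1, fun h3 => hl ?_⟩
          have h2 := congrFun h (Fin.last m)
          simp only [Fin.snoc_last] at h2
          rw [← h2]
          refine (hY s).mpr ?_
          rwa [h1]
        · rintro ⟨h1, h3⟩
          funext i
          refine Fin.lastCases ?_ (fun j => ?_) i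
          · simp only [Fin.snoc_last]
            refine propext ⟨fun h4 => ?_, fun h4 => absurd h4 hl⟩
            have := (hY s).mp h4
            rw [h1] at this
            exact absurd this h3
          · have := congrFun h1 j
            simpa using this
      rw [e1, e2]
      exact hA'3 τ0 k hk

theorem ef {m : ℕ} (φ : RL.BoundedFormula Empty m) :
    ∀ (x : Fin m → Set (Option S)) (y : Fin m → Set (Option S'))
      (v : Empty → Set (Option S)) (w : Empty → Set (Option S')),
      Sim (3 * 2 ^ qrank φ) x y → (φ.Realize v x ↔ φ.Realize w y) := by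
  induction φ with
  | falsum => intro x y v w _; exact Iff.rfl
  | equal t₁ t₂ =>
    intro x y v w hs
    have ht : 3 ≤ 3 * 2 ^ qrank (Language.BoundedFormula.equal t₁ t₂ : RL.BoundedFormula Empty _) := by
      have := Nat.one_le_two_pow
        (n := qrank (Language.BoundedFormula.equal t₁ t₂ : RL.BoundedFormula Empty _))
      omega
    have c1 := term_corr ht hs v w t₁
    have c2 := term_corr ht hs v w t₂
    exact ⟨fun e => eq_of_corr ht hs c1 c2 e, fun e => eq_of_corr ht hs.symm c1.symm c2.symm e⟩
  | rel R ts => exact Empty.elim R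
  | imp f g ihf ihg =>
    intro x y v w hs
    have hf : Sim (3 * 2 ^ qrank f) x y := hs.mono (by
      have : qrank f ≤ qrank (f.imp g) := le_max_left _ _
      exact Nat.mul_le_mul_left 3 (Nat.pow_le_pow_right (by norm_num) this))
    have hg : Sim (3 * 2 ^ qrank g) x y := hs.mono (by
      have : qrank g ≤ qrank (f.imp g) := le_max_right _ _
      exact Nat.mul_le_mul_left 3 (Nat.pow_le_pow_right (by norm_num) this))
    rw [Language.BoundedFormula.realize_imp, Language.BoundedFormula.realize_imp,
      ihf x y v w hf, ihg x y v w hg]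
  | all f ih =>
    intro x y v w hs
    have hs' : Sim (2 * (3 * 2 ^ qrank f)) x y := by
      have : 3 * 2 ^ qrank f.all = 2 * (3 * 2 ^ qrank f) := by
        show 3 * 2 ^ (qrank f + 1) = _
        ring
      rwa [this] at hs
    rw [Language.BoundedFormula.realize_all, Language.BoundedFormula.realize_all]
    constructor
    · intro h Y
      obtain ⟨X, hX⟩ := hs'.symm.extend Y
      exact (ih _ _ v w hX.symm).mp (h X)
    · intro h X
      obtain ⟨Y, hY⟩ := hs'.extend X
      exact (ih _ _ v w hY).mpr (h Y)

/-- Lyndon algebras with many slopes satisfy the same sentences of small quantifier rank. -/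
theorem lyn_equiv (r : ℕ) (hS : ((3 * 2 ^ r : ℕ) : ℕ∞) ≤ (Set.univ : Set S).encard)
    (hS' : ((3 * 2 ^ r : ℕ) : ℕ∞) ≤ (Set.univ : Set S').encard)
    (φ : RL.Sentence) (hφ : qrank φ ≤ r) :
    (Set (Option S) ⊨ φ ↔ Set (Option S') ⊨ φ) := by
  unfold Language.Sentence.Realize Language.Formula.Realize
  apply ef
  refine ⟨fun i => i.elim0, fun τ k hk => ?_⟩
  have hk' : (k : ℕ∞) ≤ ((3 * 2 ^ r : ℕ) : ℕ∞) := by
    have : k ≤ 3 * 2 ^ r := hk.trans (Nat.mul_le_mul_left 3 (Nat.pow_le_pow_right (by norm_num) hφ))
    exact_mod_cast this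
  have e1 : ∀ d : Fin 0 → Set (Option S), {s : S | (fun i => some s ∈ d i) = τ} = Set.univ := by
    intro d
    ext s
    simp only [Set.mem_ofPred_eq, Set.mem_univ, iff_true]
    exact Subsingleton.elim _ _
  have e2 : ∀ d : Fin 0 → Set (Option S'), {s : S' | (fun i => some s ∈ d i) = τ}
      = Set.univ := by
    intro d
    ext s
    simp only [Set.mem_ofPred_eq, Set.mem_univ, iff_true]
    exact Subsingleton.elim _ _
  rw [e1, e2]
  exact ⟨fun _ => hk'.trans hS', fun _ => hk'.trans hS⟩

end P3fd
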