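import Pool.Agent.Lib.P3fd.Defs

set_option autoImplicit false

/-! A representation of the Lyndon algebra with finitely many slopes gives a projective plane. -/

open FirstOrder

namespace P3fd

/-- A representation gives a complete edge labelling by atoms. -/
theorem rep_label {S : Type} [Finite S] (hrep : Representable (Set (Option S))) :
    ∃ (V : Type) (lab : V → V → Option S), Nonempty V ∧ (∀ u v, lab u v = none ↔ u = v) ∧
      (∀ u v, lab u v = lab v u) ∧
      (∀ u v x z, Tri x z (lab u v) ↔ ∃ y, lab u y = x ∧ lab y v = z) := by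
  obtain ⟨U, E, h, hE, hinj, hsub, hid', hcompl', hconv', hun', hcomp'⟩ := hrep
  have hid : h {none} = {p : U × U | p.1 = p.2} := hid'
  have hcompl : ∀ a : Set (Option S), h aᶜ = {p : U × U | E p.1 p.2 ∧ p ∉ h a} := hcompl'
  have hconv : ∀ a : Set (Option S), h a = {p : U × U | (p.2, p.1) ∈ h a} := hconv'
  have hun : ∀ a b : Set (Option S), h (a ∪ b) = h a ∪ h b := hun'
  have hcomp : ∀ a b : Set (Option S), h (comp a b) =
    {p : U × U | ∃ y : U, (p.1, y) ∈ h a ∧ (y, p.2) ∈ h b} := hcomp'
  have huniv : ∀ p : U × U, p ∈ h Set.univ ↔ E p.1 p.2 := by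
    intro p
    constructor
    · exact hsub _ p
    · intro hp
      have : (Set.univ : Set (Option S)) = ∅ ∪ ∅ᶜ := by simp
      rw [this, hun, hcompl]
      by_cases hc : p ∈ h ∅
      · exact Or.inl hc
      · exact Or.inr ⟨hp, hc⟩
  have hempty : h ∅ = ∅ := by
    have : (∅ : Set (Option S)) = Set.univᶜ := by simp
    rw [this, hcompl]
    ext p
    constructor
    · rintro ⟨h1, h2⟩
      exact h2 ((huniv p).mpr h1)
    · intro hp
      exact absurd hp (Set.notMem_empty p)
  have hmono : ∀ a b : Set (Option S), a ⊆ b → h a ⊆ h b := by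
    intro a b hab
    have : b = a ∪ b := (Set.union_eq_self_of_subset_left hab).symm
    rw [this, hun]
    exact Set.subset_union_left
  have hex : ∀ X : Set (Option S), ∀ p ∈ h X, ∃ o ∈ X, p ∈ h {o} := by
    intro X
    induction X, Set.toFinite X using Set.Finite.induction_on with
    | empty =>
      intro p hp
      rw [hempty] at hp
      exact absurd hp (Set.notMem_empty p)
    | @insert a s _ _ ih =>
      intro p hp
      rw [← Set.singleton_union, hun] at hp
      rcases hp with hp | hp
      · exact ⟨a, Set.mem_insert _ _, hp⟩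
      · obtain ⟨o, ho, hpo⟩ := ih p hp
        exact ⟨o, Set.mem_insert_of_mem _ ho, hpo⟩
  have huniq : ∀ (p : U × U) (o o' : Option S), p ∈ h {o} → p ∈ h {o'} → o = o' := by
    intro p o o' h1 h2
    by_contra hne
    have h3 : p ∈ h {o}ᶜ := hmono {o'} {o}ᶜ (by
      rw [Set.singleton_subset_iff, Set.mem_compl_iff, Set.mem_singleton_iff]
      exact fun e => hne e.symm) h2
    rw [hcompl] at h3
    exact h3.2 h1
  -- a point
  obtain ⟨u0⟩ : Nonempty U := by
    by_contra hU
    rw [not_nonempty_iff] at hU
    have : ({none} : Set (Option S)) = ∅ := hinj (by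
      ext p
      exact hU.elim p.1)
    exact Set.singleton_ne_empty none this
  have key : ∀ u v : {u : U // E u0 u}, ∃ o : Option S, (u.1, v.1) ∈ h {o} := by
    intro u v
    have h1 : (u.1, v.1) ∈ h Set.univ := (huniv _).mpr (hE.trans (hE.symm u.2) v.2)
    obtain ⟨o, -, ho⟩ := hex _ _ h1
    exact ⟨o, ho⟩
  choose lab hlab using key
  have hlab_iff : ∀ (u v : {u : U // E u0 u}) (X : Set (Option S)),
      (u.1, v.1) ∈ h X ↔ lab u v ∈ X := by
    intro u v X
    constructor
    · intro h1
      obtain ⟨o, ho, h2⟩ := hex _ _ h1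
      rw [huniq _ _ _ (hlab u v) h2]
      exact ho
    · intro h1
      exact hmono _ _ (Set.singleton_subset_iff.mpr h1) (hlab u v)
  refine ⟨{u : U // E u0 u}, lab, ⟨⟨u0, hE.refl u0⟩⟩, ?_, ?_, ?_⟩
  · intro u v
    rw [← Set.mem_singleton_iff, ← hlab_iff, hid]
    exact Subtype.ext_iff.symm
  · intro u v
    have h1 := hlab v u
    rw [hconv] at h1
    exact huniq _ _ _ (hlab u v) h1
  · intro u v x z
    have h1 : Tri x z (lab u v) ↔ lab u v ∈ comp {x} {z} := by
      constructor
      · intro h
        exact ⟨x, rfl, z, rfl, h⟩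
      · rintro ⟨x', hx', z', hz', h⟩
        rw [Set.mem_singleton_iff] at hx' hz'
        rwa [hx', hz'] at h
    rw [h1, ← hlab_iff, hcomp]
    constructor
    · rintro ⟨y, hy1, hy2⟩
      have hEy : E u0 y := hE.trans u.2 (hsub _ _ hy1)
      exact ⟨⟨y, hEy⟩, (hlab_iff u ⟨y, hEy⟩ {x}).mp hy1, (hlab_iff ⟨y, hEy⟩ v {z}).mp hy2⟩
    · rintro ⟨y, hy1, hy2⟩
      exact ⟨y.1, (hlab_iff u y {x}).mpr hy1, (hlab_iff y v {z}).mpr hy2⟩

section
variable {S V : Type} (lab : V → V → Option S)

/-- Parallelism relation: on the same line of slope `a`. -/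
def par (hn : ∀ u v, lab u v = none ↔ u = v) (hc : ∀ u v, lab u v = lab v u)
    (ht : ∀ u v x z, Tri x z (lab u v) ↔ ∃ y, lab u y = x ∧ lab y v = z) (a : S) : Setoid V where
  r u v := lab u v = none ∨ lab u v = some a
  iseqv := by
    refine ⟨fun u => Or.inl ((hn u u).mpr rfl), fun {u v} h => by rwa [hc v u], ?_⟩
    intro u v w h1 h2
    have h3 : Tri (lab u v) (lab v w) (lab u w) := (ht u w _ _).mpr ⟨v, rfl, rfl⟩
    rcases h1 with h1 | h1
    · rw [h1] at h3
      simp only [Tri] at h3
      rwa [← h3]
    · rcases h2 with h2 | h2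
      · rw [h1, h2] at h3
        simp only [Tri] at h3
        exact Or.inr h3
      · rw [h1, h2] at h3
        rcases hx : lab u w with _ | c
        · exact Or.inl rfl
        · rw [hx] at h3
          simp only [Tri] at h3
          rcases h3 with h3 | h3
          · exact Or.inr (by rw [h3.2])
          · exact absurd rfl h3.1

end

open Configuration in
theorem plane_of_label {S V : Type} [Fintype S] (h3 : 3 ≤ Fintype.card S)
    (lab : V → V → Option S) (hV : Nonempty V)
    (hn : ∀ u v, lab u v = none ↔ u = v) (hc : ∀ u v, lab u v = lab v u)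
    (ht : ∀ u v x z, Tri x z (lab u v) ↔ ∃ y, lab u y = x ∧ lab y v = z) :
    ∃ (P L : Type) (_ : Membership P L) (_ : Fintype P) (_ : Fintype L)
      (_ : ProjectivePlane P L), ProjectivePlane.order P L + 1 = Fintype.card S := by
  classical
  obtain ⟨u0⟩ := hV
  obtain ⟨s1, s2, s3, h12, h13, h23⟩ := Fintype.two_lt_card_iff.mp (show 2 < Fintype.card S by omega)
  -- a point in each direction
  have hdir : ∀ (u : V) (a : S), ∃ y, lab u y = some a := by
    intro u a
    have h1 : Tri (some a) (some a) (lab u u) := by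
      rw [(hn u u).mpr rfl]
      exact rfl
    obtain ⟨y, hy, -⟩ := (ht u u _ _).mp h1
    exact ⟨y, hy⟩
  obtain ⟨w1, hw1⟩ := hdir u0 s1
  obtain ⟨w2, hw2⟩ := hdir u0 s2
  -- sides of a triangle
  have tri3 : ∀ u v w : V, Tri (lab u v) (lab v w) (lab u w) :=
    fun u v w => (ht u w _ _).mpr ⟨v, rfl, rfl⟩
  let st : S → Setoid V := par lab hn hc ht
  have hst : ∀ (a : S) (u v : V), (st a).r u v ↔ (lab u v = none ∨ lab u v = some a) :=
    fun a u v => Iff.rfl
  -- finiteness
  have hfin : Finite V := by
    refine Finite.of_injective (fun y => (lab u0 y, lab w1 y, lab w2 y)) ?_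
    intro y y' hyy
    simp only [Prod.mk.injEq] at hyy
    obtain ⟨e0, e1, e2⟩ := hyy
    by_contra hne
    -- each base point sees y and y' in the direction of the line y y'
    have gen : ∀ w : V, lab w y = lab w y' → lab w y = lab y y' := by
      intro w hw
      have h1 := tri3 y w y'
      rw [hc y w, ← hw] at h1
      rcases hx : lab w y with _ | c
      · have hwy := (hn w y).mp hx
        rw [hx] at hw
        have hwy' := (hn w y').mp hw.symm
        exact absurd (hwy.symm.trans hwy') hne
      · rw [hx] at h1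
        rcases hz : lab y y' with _ | d
        · exact absurd ((hn y y').mp hz) hne
        · rw [hz] at h1
          simp only [Tri] at h1
          rcases h1 with h1 | h1
          · rw [h1.2]
          · exact absurd rfl h1.1
    have g0 := gen u0 e0
    have g1 := gen w1 e1
    have g2 := gen w2 e2
    rcases hz : lab y y' with _ | d
    · exact hne ((hn y y').mp hz)
    · rw [hz] at g0 g1 g2
      have f1 : lab u0 w1 = none ∨ lab u0 w1 = some d := by
        have r1 : (st d).r u0 y := Or.inr g0
        have r2 : (st d).r w1 y := Or.inr g1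
        exact (st d).iseqv.trans r1 ((st d).iseqv.symm r2)
      have f2 : lab u0 w2 = none ∨ lab u0 w2 = some d := by
        have r1 : (st d).r u0 y := Or.inr g0
        have r2 : (st d).r w2 y := Or.inr g2
        exact (st d).iseqv.trans r1 ((st d).iseqv.symm r2)
      rw [hw1] at f1
      rw [hw2] at f2
      simp only [Option.some.injEq, reduceCtorEq, false_or] at f1 f2
      exact h12 (f1.trans f2.symm)
  let P := V ⊕ S
  let L := (Σ a : S, Quotient (st a)) ⊕ Unit
  let inc : L → P → Prop := fun l p =>
    match l, p with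
    | Sum.inl ac, Sum.inl u => Quotient.mk (st ac.1) u = ac.2
    | Sum.inr _, Sum.inl _ => False
    | Sum.inl ac, Sum.inr b => b = ac.1
    | Sum.inr _, Sum.inr _ => True
  let mem : Membership P L := ⟨inc⟩
  have : Finite V := hfin
  have fP : Finite P := inferInstanceAs (Finite (V ⊕ S))
  have fL : Finite L := inferInstanceAs (Finite ((Σ a : S, Quotient (st a)) ⊕ Unit))
  have m1 : ∀ (u : V) (ac : Σ a : S, Quotient (st a)),
      ((Sum.inl u : P) ∈ (Sum.inl ac : L)) ↔ Quotient.mk (st ac.1) u = ac.2 := fun _ _ => Iff.rfl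
  have m2 : ∀ (u : V) (t : Unit), ¬ ((Sum.inl u : P) ∈ (Sum.inr t : L)) := fun _ _ h => h
  have m3 : ∀ (b : S) (ac : Σ a : S, Quotient (st a)),
      ((Sum.inr b : P) ∈ (Sum.inl ac : L)) ↔ b = ac.1 := fun _ _ => Iff.rfl
  have m4 : ∀ (b : S) (t : Unit), ((Sum.inr b : P) ∈ (Sum.inr t : L)) := fun _ _ => trivial
  have hother : ∀ a : S, ∃ b : S, b ≠ a := by
    intro a
    by_cases h : s1 = a
    · exact ⟨s2, fun e => h12 (h.trans e.symm)⟩
    · exact ⟨s1, h⟩
  have hnd : Nondegenerate P L := by
    refine ⟨?_, ?_, ?_⟩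
    · rintro (ac | t)
      · obtain ⟨b, hb⟩ := hother ac.1
        exact ⟨Sum.inr b, fun h => hb ((m3 b ac).mp h)⟩
      · exact ⟨Sum.inl u0, m2 u0 t⟩
    · rintro (u | b)
      · exact ⟨Sum.inr (), m2 u ()⟩
      · obtain ⟨a, ha⟩ := hother b
        exact ⟨Sum.inl ⟨a, Quotient.mk (st a) u0⟩, fun h => ha ((m3 b _).mp h).symm⟩
    · rintro (u | b) (v | b') (⟨a, C⟩ | t) (⟨a', D⟩ | t') h1 h2 h3 h4
      · rw [m1] at h1 h2 h3 h4
        have e1 : Quotient.mk (st a) u = Quotient.mk (st a) v := h1.trans h2.symm
        have e2 : Quotient.mk (st a') u = Quotient.mk (st a') v := h3.trans h4.symm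
        have e1' := Quotient.exact e1
        have e2' := Quotient.exact e2
        rcases e1' with e1' | e1'
        · left
          rw [(hn u v).mp e1']
        · rcases e2' with e2' | e2'
          · left
            rw [(hn u v).mp e2']
          · right
            have : a = a' := Option.some.inj (e1'.symm.trans e2')
            subst this
            have : C = D := h1.symm.trans h3
            rw [this]
      · exact absurd h3 (m2 _ _)
      · exact absurd h1 (m2 _ _)
      · exact absurd h1 (m2 _ _)
      · rw [m1] at h1 h3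
        rw [m3] at h2 h4
        right
        simp only at h1 h2 h3 h4
        subst h2
        subst h4
        have : C = D := h1.symm.trans h3
        rw [this]
      · exact absurd h3 (m2 _ _)
      · exact absurd h1 (m2 _ _)
      · exact absurd h1 (m2 _ _)
      · rw [m3] at h1 h3
        rw [m1] at h2 h4
        right
        simp only at h1 h2 h3 h4
        subst h1
        subst h3
        have : C = D := h2.symm.trans h4
        rw [this]
      · exact absurd h4 (m2 _ _)
      · exact absurd h2 (m2 _ _)
      · exact absurd h2 (m2 _ _)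
      · rw [m3] at h1 h2
        left
        rw [h1, h2]
      · rw [m3] at h1 h2
        left
        rw [h1, h2]
      · rw [m3] at h3 h4
        left
        rw [h3, h4]
      · right
        rfl
  have hpt : ∀ l₁ l₂ : L, l₁ ≠ l₂ → ∃ p : P, p ∈ l₁ ∧ p ∈ l₂ := by
    rintro (⟨a, C⟩ | t) (⟨b, D⟩ | t') hne
    · by_cases hab : a = b
      · exact ⟨Sum.inr a, rfl, hab⟩
      · induction C using Quotient.inductionOn with
        | _ u =>
        induction D using Quotient.inductionOn with
        | _ v =>
        rcases hx : lab u v with _ | c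
        · have := (hn u v).mp hx
          subst this
          exact ⟨Sum.inl u, rfl, rfl⟩
        · by_cases hca : c = a
          · subst hca
            refine ⟨Sum.inl v, ?_, rfl⟩
            rw [m1]
            exact Quotient.sound (Or.inr (by rw [hc, hx]))
          · by_cases hcb : c = b
            · subst hcb
              refine ⟨Sum.inl u, rfl, ?_⟩
              rw [m1]
              exact Quotient.sound (Or.inr hx)
            · have h1 : Tri (some a) (some b) (lab u v) := by
                rw [hx]
                exact Or.inr ⟨hab, hca, hcb⟩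
              obtain ⟨y, hy1, hy2⟩ := (ht u v _ _).mp h1
              refine ⟨Sum.inl y, ?_, ?_⟩
              · rw [m1]
                exact Quotient.sound (Or.inr (by rw [hc, hy1]))
              · rw [m1]
                exact Quotient.sound (Or.inr hy2)
    · exact ⟨Sum.inr a, rfl, trivial⟩
    · exact ⟨Sum.inr b, trivial, rfl⟩
    · exact absurd rfl hne
  have hln : ∀ p₁ p₂ : P, p₁ ≠ p₂ → ∃ l : L, p₁ ∈ l ∧ p₂ ∈ l := by
    rintro (u | b) (v | b') hne
    · rcases hx : lab u v with _ | c
      · exact absurd (congrArg Sum.inl ((hn u v).mp hx)) hne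
      · refine ⟨Sum.inl ⟨c, Quotient.mk (st c) u⟩, rfl, ?_⟩
        rw [m1]
        exact Quotient.sound (Or.inr (by rw [hc, hx]))
    · exact ⟨Sum.inl ⟨b', Quotient.mk (st b') u⟩, rfl, rfl⟩
    · exact ⟨Sum.inl ⟨b, Quotient.mk (st b) v⟩, rfl, rfl⟩
    · exact ⟨Sum.inr (), trivial, trivial⟩
  let pp : ProjectivePlane P L :=
    { hnd with
      mkPoint := fun {l₁ l₂} h => (hpt l₁ l₂ h).choose
      mkPoint_ax := fun {l₁ l₂} h => (hpt l₁ l₂ h).choose_spec
      mkLine := fun {p₁ p₂} h => (hln p₁ p₂ h).choose
      mkLine_ax := fun {p₁ p₂} h => (hln p₁ p₂ h).choose_spec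
      exists_config := by
        refine ⟨Sum.inl u0, Sum.inr s1, Sum.inr s2, Sum.inl ⟨s3, Quotient.mk (st s3) u0⟩,
          Sum.inr (), Sum.inl ⟨s1, Quotient.mk (st s1) w2⟩, m2 _ _, ?_, ?_, trivial, rfl, ?_,
          trivial, ?_⟩
        · rw [m1]
          intro h
          have h' := Quotient.exact h
          have h'' : lab u0 w2 = none ∨ lab u0 w2 = some s1 := h'
          rw [hw2] at h''
          simp only [reduceCtorEq, Option.some.injEq, false_or] at h''
          exact h12 h''.symm
        · rw [m3]
          exact h13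
        · rw [m3]
          exact h23
        · rw [m3]
          exact fun e => h12 e.symm }
  refine ⟨P, L, mem, Fintype.ofFinite P, Fintype.ofFinite L, pp, ?_⟩
  rw [← ProjectivePlane.pointCount_eq P (Sum.inr () : L)]
  unfold pointCount
  have e : {p : P // p ∈ (Sum.inr () : L)} ≃ S :=
    { toFun := fun p => match p with
        | ⟨Sum.inl u, h⟩ => absurd h (m2 u ())
        | ⟨Sum.inr b, _⟩ => b
      invFun := fun b => ⟨Sum.inr b, m4 b ()⟩
      left_inv := by
        rintro ⟨u | b, h⟩
        · exact absurd h (m2 u ())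
        · rfl
      right_inv := fun b => rfl }
  rw [Nat.card_congr e, Nat.card_eq_fintype_card]

end P3fd
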