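import Mathlib

set_option autoImplicit false

/-! The numbers `6 * 9 ^ j` are not sums of two rational squares. -/

namespace P3fd

theorem no_sol (j : ℕ) (z w : ℚ) (h : ((6 * 9 ^ j : ℕ) : ℚ) * z ^ 2 = 1 + w ^ 2) : False := by
  -- clear denominators
  have hz : (z.den : ℚ) ≠ 0 := by exact_mod_cast z.den_nz
  have hw : (w.den : ℚ) ≠ 0 := by exact_mod_cast w.den_nz
  have hzq : z * z.den = z.num := Rat.mul_den_eq_num z
  have hwq : w * w.den = w.num := Rat.mul_den_eq_num w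
  have h1 : ((6 * 9 ^ j : ℕ) : ℚ) * ((z.num : ℚ) * w.den) ^ 2
      = ((z.den : ℚ) * w.den) ^ 2 + ((w.num : ℚ) * z.den) ^ 2 := by
    rw [← hzq, ← hwq]
    linear_combination ((z.den : ℚ) * w.den) ^ 2 * h
  set a : ℕ := z.num.natAbs * w.den with ha
  set b : ℕ := z.den * w.den with hb
  set c : ℕ := w.num.natAbs * z.den with hc
  have h2 : (6 * 9 ^ j) * a ^ 2 = b ^ 2 + c ^ 2 := by
    have e1 : ((z.num.natAbs : ℕ) : ℚ) ^ 2 = (z.num : ℚ) ^ 2 := by
      rw [Nat.cast_natAbs, Int.cast_abs, sq_abs]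
    have e2 : ((w.num.natAbs : ℕ) : ℚ) ^ 2 = (w.num : ℚ) ^ 2 := by
      rw [Nat.cast_natAbs, Int.cast_abs, sq_abs]
    have h3 : (((6 * 9 ^ j) * a ^ 2 : ℕ) : ℚ) = ((b ^ 2 + c ^ 2 : ℕ) : ℚ) := by
      rw [ha, hb, hc]
      push_cast
      push_cast at h1
      rw [mul_pow, mul_pow, mul_pow, e1, e2]
      rw [mul_pow, mul_pow, mul_pow] at h1
      exact h1
    exact_mod_cast h3
  have hb0 : b ≠ 0 := Nat.mul_ne_zero z.den_nz w.den_nz
  have ha0 : a ≠ 0 := by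
    intro e
    rw [e] at h2
    have : 0 < b ^ 2 := by positivity
    simp at h2
    omega
  have hn0 : (6 * 9 ^ j) * a ^ 2 ≠ 0 := by positivity
  have h4 := (Nat.eq_sq_add_sq_iff (n := (6 * 9 ^ j) * a ^ 2)).mp ⟨b, c, h2⟩
  have : Fact (Nat.Prime 3) := ⟨Nat.prime_three⟩
  have h5 : 3 ∈ ((6 * 9 ^ j) * a ^ 2).primeFactors := by
    rw [Nat.mem_primeFactors]
    refine ⟨Nat.prime_three, ?_, hn0⟩
    exact ⟨2 * 9 ^ j * a ^ 2, by ring⟩
  have h6 := h4 3 h5 (by norm_num)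
  have h7 : padicValNat 3 ((6 * 9 ^ j) * a ^ 2) = 1 + 2 * j + 2 * padicValNat 3 a := by
    have e1 : (6 * 9 ^ j) * a ^ 2 = 2 * (3 ^ (1 + 2 * j) * a ^ 2) := by
      rw [pow_add, pow_mul]
      norm_num
      ring
    rw [e1, padicValNat.mul (by norm_num) (by positivity), padicValNat.mul (by positivity)
      (by positivity), padicValNat.prime_pow, padicValNat.pow]
    have : padicValNat 3 2 = 0 := padicValNat.eq_zero_of_not_dvd (by norm_num)
    rw [this]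
    ring
  rw [h7] at h6
  obtain ⟨k, hk⟩ := h6
  omega

end P3fd
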