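import Pool.Agent.Lib.P3fd.Defs

set_option autoImplicit false

/-! The Lyndon algebra of the affine plane over a field is representable. -/

open FirstOrder

namespace P3fd

section
variable {K : Type} [Field K] [DecidableEq K]

/-- Direction vector of a slope. -/
def dir : Option K → K × K
  | none => (0, 1)
  | some s => (1, s)

/-- Slope of the line through two points. -/
def label (u v : K × K) : Option (Option K) :=
  if u = v then none else if u.1 = v.1 then some none else some (some ((v.2 - u.2) / (v.1 - u.1)))

omit [DecidableEq K] in
theorem indep {a b : Option K} (hab : a ≠ b) {α β : K} (h : α • dir a + β • dir b = 0) :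
    α = 0 ∧ β = 0 := by
  rw [Prod.ext_iff] at h
  obtain ⟨h1, h2⟩ := h
  cases a with
  | none =>
    cases b with
    | none => exact absurd rfl hab
    | some s' =>
      simp [dir] at h1 h2
      subst h1
      simp at h2
      exact ⟨h2, rfl⟩
  | some s =>
    cases b with
    | none =>
      simp [dir] at h1 h2
      subst h1
      simp at h2
      exact ⟨rfl, h2⟩
    | some s' =>
      simp [dir] at h1 h2
      have hne : s - s' ≠ 0 := by
        intro e
        exact hab (by rw [sub_eq_zero.mp e])
      have hb : β = -α := by linear_combination h1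
      subst hb
      have : α * (s - s') = 0 := by linear_combination h2
      rcases mul_eq_zero.mp this with h | h
      · exact ⟨h, by rw [h]; ring⟩
      · exact absurd h hne

omit [DecidableEq K] in
theorem spn {a b : Option K} (hab : a ≠ b) (w : K × K) :
    ∃ α β : K, w = α • dir a + β • dir b := by
  cases a with
  | none =>
    cases b with
    | none => exact absurd rfl hab
    | some s' =>
      refine ⟨w.2 - s' * w.1, w.1, ?_⟩
      ext
      · simp [dir]
      · simp [dir]; ring
  | some s =>
    cases b with
    | none =>
      refine ⟨w.1, w.2 - s * w.1, ?_⟩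
      ext
      · simp [dir]
      · simp [dir]; ring
    | some s' =>
      have hne : s - s' ≠ 0 := by
        intro e
        exact hab (by rw [sub_eq_zero.mp e])
      refine ⟨(w.2 - s' * w.1) / (s - s'), w.1 - (w.2 - s' * w.1) / (s - s'), ?_⟩
      ext
      · simp [dir]
      · simp [dir]
        field_simp
        ring

theorem label_none {u v : K × K} : label u v = none ↔ u = v := by
  unfold label
  split_ifs <;> simp_all

theorem label_some {u v : K × K} {s : Option K} :
    label u v = some s ↔ ∃ t : K, t ≠ 0 ∧ v = u + t • dir s := by
  unfold label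
  constructor
  · intro h
    split_ifs at h with h1 h2
    · rw [Option.some.injEq] at h
      subst h
      refine ⟨v.2 - u.2, ?_, ?_⟩
      · intro e
        apply h1
        ext
        · exact h2
        · exact (sub_eq_zero.mp e).symm
      · ext
        · simp [dir, h2]
        · simp [dir]
    · rw [Option.some.injEq] at h
      subst h
      have hne : v.1 - u.1 ≠ 0 := by
        intro e
        exact h2 (sub_eq_zero.mp e).symm
      refine ⟨v.1 - u.1, hne, ?_⟩
      ext
      · simp [dir]
      · simp [dir]
        field_simp
        ring
  · rintro ⟨t, ht, rfl⟩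
    cases s with
    | none =>
      have h1 : ¬ (u = u + t • dir none) := by
        intro e
        have := congrArg Prod.snd e
        simp [dir] at this
        exact ht this
      rw [if_neg h1, if_pos (by simp [dir])]
    | some s =>
      have h1 : ¬ (u = u + t • dir (some s)) := by
        intro e
        have := congrArg Prod.fst e
        simp [dir] at this
        exact ht this
      have h2 : ¬ (u.1 = (u + t • dir (some s)).1) := by
        intro e
        simp [dir] at e
        exact ht e
      rw [if_neg h1, if_neg h2]
      simp [dir]
      field_simp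

theorem label_comm (u v : K × K) : label u v = label v u := by
  by_cases h : u = v
  · rw [h]
  · obtain ⟨s, hs⟩ := Option.ne_none_iff_exists'.mp (fun e => h (label_none.mp e))
    rw [hs]
    obtain ⟨t, ht, hv⟩ := label_some.mp hs
    symm
    rw [label_some]
    refine ⟨-t, by simpa using ht, ?_⟩
    rw [hv]
    simp

theorem label_tri (u y v : K × K) : Tri (label u y) (label y v) (label u v) := by
  by_cases h1 : u = y
  · subst h1
    rw [label_none.mpr rfl]
    simp [Tri]
  by_cases h2 : y = v
  · subst h2
    obtain ⟨s, hs⟩ := Option.ne_none_iff_exists'.mp (fun e => h1 (label_none.mp e))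
    rw [hs, label_none.mpr rfl]
    simp [Tri]
  obtain ⟨a, ha⟩ := Option.ne_none_iff_exists'.mp (fun e => h1 (label_none.mp e))
  obtain ⟨b, hb⟩ := Option.ne_none_iff_exists'.mp (fun e => h2 (label_none.mp e))
  obtain ⟨t, ht, hy⟩ := label_some.mp ha
  obtain ⟨t', ht', hv⟩ := label_some.mp hb
  rw [ha, hb]
  by_cases hab : a = b
  · subst hab
    by_cases hz : t + t' = 0
    · have : u = v := by
        rw [hv, hy, add_assoc, ← add_smul, hz, zero_smul, add_zero]
      rw [label_none.mpr this]
      simp [Tri]
    · have : label u v = some a := by
        rw [label_some]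
        exact ⟨t + t', hz, by rw [hv, hy, add_assoc, ← add_smul]⟩
      rw [this]
      simp [Tri]
  · have hv' : v = u + (t • dir a + t' • dir b) := by rw [hv, hy, add_assoc]
    have hne : u ≠ v := by
      intro e
      have : t • dir a + t' • dir b = 0 := by
        rw [e] at hv'
        simpa using hv'
      exact ht (indep hab this).1
    obtain ⟨c, hc⟩ := Option.ne_none_iff_exists'.mp (fun e => hne (label_none.mp e))
    rw [hc]
    obtain ⟨t'', ht'', hv''⟩ := label_some.mp hc
    have e : t'' • dir c = t • dir a + t' • dir b := by
      rw [hv'] at hv''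
      exact (add_left_cancel hv'').symm
    right
    refine ⟨hab, ?_, ?_⟩
    · intro hca
      rw [hca] at e
      have : (t - t'') • dir a + t' • dir b = 0 := by
        rw [sub_smul, e]
        abel
      exact ht' (indep hab this).2
    · intro hcb
      rw [hcb] at e
      have : t • dir a + (t' - t'') • dir b = 0 := by
        rw [sub_smul, e]
        abel
      exact ht (indep hab this).1

theorem label_ext (hK : ∀ t : K, ∃ s : K, s ≠ 0 ∧ s ≠ t) (u v : K × K)
    (x z : Option (Option K)) (h : Tri x z (label u v)) :
    ∃ y, label u y = x ∧ label y v = z := by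
  cases x with
  | none =>
    simp only [Tri] at h
    exact ⟨u, label_none.mpr rfl, h.symm⟩
  | some a =>
    cases z with
    | none =>
      simp only [Tri] at h
      exact ⟨v, h, label_none.mpr rfl⟩
    | some b =>
      rcases hl : label u v with _ | c
      · rw [hl] at h
        simp only [Tri] at h
        subst h
        have huv := label_none.mp hl
        subst huv
        have : label u (u + (1 : K) • dir a) = some a := label_some.mpr ⟨1, one_ne_zero, rfl⟩
        exact ⟨u + (1 : K) • dir a, this, by rw [label_comm]; exact this⟩
      · rw [hl] at h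
        obtain ⟨t, ht, hv⟩ := label_some.mp hl
        rcases h with ⟨hab, hbc⟩ | ⟨hab, hca, hcb⟩
        · subst hab; subst hbc
          obtain ⟨s, hs0, hst⟩ := hK t
          refine ⟨u + s • dir a, label_some.mpr ⟨s, hs0, rfl⟩, label_some.mpr ⟨t - s, ?_, ?_⟩⟩
          · intro e
            exact hst (sub_eq_zero.mp e).symm
          · rw [hv, add_assoc, ← add_smul]
            congr 2
            ring
        · obtain ⟨α, β, hw⟩ := spn hab (t • dir c)
          have hα : α ≠ 0 := by
            intro e
            rw [e, zero_smul, zero_add] at hw
            have : t • dir c + (-β) • dir b = 0 := by rw [hw]; simp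
            exact ht (indep hcb this).1
          have hβ : β ≠ 0 := by
            intro e
            rw [e, zero_smul, add_zero] at hw
            have : t • dir c + (-α) • dir a = 0 := by rw [hw]; simp
            exact ht (indep hca this).1
          refine ⟨u + α • dir a, label_some.mpr ⟨α, hα, rfl⟩, label_some.mpr ⟨β, hβ, ?_⟩⟩
          rw [hv, hw, add_assoc]

theorem rep_field (hK : ∀ t : K, ∃ s : K, s ≠ 0 ∧ s ≠ t) :
    Representable (Set (Option (Option K))) := by
  refine ⟨K × K, fun _ _ => True, fun X => {p | label p.1 p.2 ∈ X}, ?_, ?_, ?_, ?_, ?_, ?_, ?_, ?_⟩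
  · exact ⟨fun _ => trivial, fun _ => trivial, fun _ _ => trivial⟩
  · intro X Y hXY
    ext o
    have key : ∃ p : (K × K) × (K × K), label p.1 p.2 = o := by
      cases o with
      | none => exact ⟨(0, 0), label_none.mpr rfl⟩
      | some s =>
        exact ⟨(0, 0 + (1 : K) • dir s), label_some.mpr ⟨1, one_ne_zero, rfl⟩⟩
    obtain ⟨p, rfl⟩ := key
    have := Set.ext_iff.mp hXY p
    exact this
  · intro _ _ _
    trivial
  · ext p
    show label p.1 p.2 ∈ ({none} : Set (Option (Option K))) ↔ _
    rw [Set.mem_singleton_iff, label_none]
    rfl
  · intro X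
    ext p
    exact ⟨fun h => ⟨trivial, h⟩, fun h => h.2⟩
  · intro X
    ext p
    show label p.1 p.2 ∈ X ↔ label p.2 p.1 ∈ X
    rw [label_comm]
  · intro X Y
    ext p
    exact Iff.rfl
  · intro X Y
    ext p
    show label p.1 p.2 ∈ comp X Y ↔ ∃ y, label p.1 y ∈ X ∧ label y p.2 ∈ Y
    constructor
    · rintro ⟨x, hx, z, hz, h⟩
      obtain ⟨y, h1, h2⟩ := label_ext hK p.1 p.2 x z h
      exact ⟨y, by rw [h1]; exact hx, by rw [h2]; exact hz⟩
    · rintro ⟨y, h1, h2⟩
      exact ⟨_, h1, _, h2, label_tri _ _ _⟩

end

end P3fd
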